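import Mathlib
import Pool.Agent.Helper166_HN.Final
import Pool.Agent.Results.MP_6883a6_al.RankFormula

/-!
# The Hanna Neumann inequality over free group algebras

Definitions (in `Pool.Agent.Helper166_HN.RDefs`), for a field `K`, a group `G` and `d : ℕ`:

* `RSub K G d`: the right `K[G]`-submodules of the free right module `K[G]^d`;
* `interR M H`: the right `K[H]`-submodule `M ∩ K[H]^d` of `K[H]^d`;
* `HasRank M m`: `M` is free with a basis of `m` elements;
* `Algebraic M`: no proper free direct summand of `K[G]^d` contains `M`;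
* `InnerRank M ρ`: `ρ` is the least number of generators of a submodule of `K[G]^d` containing `M`;
* `Full M`: every submodule of `K[G]^d` containing `M` needs at least `d` generators.
-/

set_option autoImplicit false

namespace Pool.Agent.Results.MP_6883a6_al.HannaNeumann

open Pool.Agent.Helper166_HN

theorem innerRank_exists {K : Type} [Field K] {G : Type} [Group G] {d : ℕ} (M : RSub K G d)
    (hM : M.FG) : ∃ ρ, InnerRank M ρ := by
  classical
  have h : ∃ n : ℕ, ∃ v : Fin n → Fin d → MonoidAlgebra K G,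
      M ≤ Submodule.span (MonoidAlgebra K G)ᵐᵒᵖ (Set.range v) := by
    obtain ⟨n, v, hv⟩ := Submodule.fg_iff_exists_fin_generating_family.1 hM
    exact ⟨n, v, hv.ge⟩
  exact ⟨Nat.find h, Nat.find_spec h, fun n v hv => Nat.find_min' h ⟨v, hv⟩⟩

/-- part one, for all finitely generated submodules -/
theorem general {K : Type} [Field K] {X : Type} {d : ℕ} (hd : 0 < d)
    (H : Subgroup (FreeGroup X)) (hH : H ≠ ⊥) (M : RSub K (FreeGroup X) d)
    {m n ρ r : ℕ} (hm : HasRank M m) (hn : HasRank (interR M H) n) (hρ : InnerRank M ρ)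
    (e : H ≃* FreeGroup (Fin r)) :
    (n : ℚ) - ρ ≤ ((m : ℚ) - ρ) * ((r : ℚ) - 1) ∧
      (Full M ∨ r ≤ 2 → (n : ℚ) / d - 1 ≤ ((m : ℚ) / d - 1) * ((r : ℚ) - 1)) := by
  obtain ⟨ρ', n', k1, k2, k3, k4, k5, k6⟩ :=
    right_gen K X d H hH r (FreeGroupBasis.ofRepr e) M m hm
  obtain rfl := fin_innerRank_unique hρ k1
  obtain rfl := hasRank_unique _ hn k5
  have k6' : (n : ℚ) - ρ ≤ ((m : ℚ) - ρ) * ((r : ℚ) - 1) := by exact_mod_cast k6
  refine ⟨k6', fun hor => ?_⟩
  have hd' : (0 : ℚ) < d := by exact_mod_cast hd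
  have key : (n : ℚ) - d ≤ ((m : ℚ) - d) * ((r : ℚ) - 1) := by
    rcases hor with hfull | hr
    · obtain ⟨⟨v, hv⟩, _⟩ := k1
      have hρd : ρ = d := le_antisymm k2 (hfull ρ v hv)
      rw [← hρd]
      exact k6'
    · have k2' : (ρ : ℚ) ≤ d := by exact_mod_cast k2
      interval_cases r
      · push_cast at k6' ⊢
        linarith
      · push_cast at k6' ⊢
        linarith
  have e1 : (n : ℚ) / d - 1 = ((n : ℚ) - d) / d := by field_simp
  have e2 : ((m : ℚ) / d - 1) * ((r : ℚ) - 1) = (((m : ℚ) - d) * ((r : ℚ) - 1)) / d := by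
    field_simp
  rw [e1, e2]
  exact div_le_div_of_nonneg_right key hd'.le

/-- an algebraic right ideal is not zero -/
theorem ne_bot_of_algebraic {K : Type} [Field K] {G : Type} [Group G] {M : RSub K G 1}
    (hM : Algebraic M) : M ≠ ⊥ := by
  intro h
  have h1 : (⊥ : RSub K G 1) = ⊤ := hM ⊥ ⊤ isCompl_bot_top inferInstance h.le
  have h2 : (fun _ => 1 : Fin 1 → MonoidAlgebra K G) ∈ (⊥ : RSub K G 1) := by
    rw [h1]; trivial
  rw [Submodule.mem_bot] at h2
  exact one_ne_zero (congrFun h2 0)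

/-- **The Hanna Neumann inequality over free group algebras.** Let `K` be a field.

(1) For every finitely generated right submodule `M` of `K[F]^d`, every nontrivial finitely
generated subgroup `H` of the free group `F`, with `ρ` the inner rank of `M`:
`rk(M ∩ K[H]^d) - ρ ≤ (rk M - ρ) (rk H - 1)`; if `M` is full (that is, `ρ = d`), or if
`rk H ≤ 2`, then `rk(M ∩ K[H]^d) / d - 1 ≤ (rk M / d - 1) (rk H - 1)`.
(2) For given `d` and `r` the last inequality holds for all free groups `F`, all subgroups `H` of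
rank `r` and all finitely generated algebraic `M` if and only if `d = 1` or `r ≤ 2`.
(3) A right ideal is full if and only if it is not zero.
(4) Full submodules are algebraic. -/
theorem result (K : Type) [Field K] :
    (∀ (X : Type) (d : ℕ), 0 < d → ∀ H : Subgroup (FreeGroup X), H ≠ ⊥ → H.FG →
      ∀ M : RSub K (FreeGroup X) d, M.FG →
        (∃ m, HasRank M m) ∧ (∃ n, HasRank (interR M H) n) ∧ (∃ ρ, InnerRank M ρ) ∧
        (∃ r, Nonempty (H ≃* FreeGroup (Fin r))) ∧
        ∀ m n ρ r : ℕ, HasRank M m → HasRank (interR M H) n → InnerRank M ρ →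
          Nonempty (H ≃* FreeGroup (Fin r)) →
          (n : ℚ) - ρ ≤ ((m : ℚ) - ρ) * ((r : ℚ) - 1) ∧
          (Full M ∨ r ≤ 2 → (n : ℚ) / d - 1 ≤ ((m : ℚ) / d - 1) * ((r : ℚ) - 1))) ∧
    (∀ d r : ℕ, 0 < d → 0 < r →
      ((∀ (X : Type) (H : Subgroup (FreeGroup X)), Nonempty (H ≃* FreeGroup (Fin r)) →
        ∀ M : RSub K (FreeGroup X) d, M.FG → Algebraic M →
          ∀ m n : ℕ, HasRank M m → HasRank (interR M H) n →
            (n : ℚ) / d - 1 ≤ ((m : ℚ) / d - 1) * ((r : ℚ) - 1)) ↔ d = 1 ∨ r ≤ 2)) ∧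
    (∀ (X : Type) (M : RSub K (FreeGroup X) 1), Full M ↔ M ≠ ⊥) ∧
    (∀ (X : Type) (d : ℕ) (M : RSub K (FreeGroup X) d), Full M → Algebraic M) := by
  refine ⟨?_, ?_, fun X M => full_one_iff M, fun X d M hM => algebraic_of_full hM⟩
  · intro X d hd H hH hHfg M hMfg
    obtain ⟨m₀, hm₀⟩ := hasRank_of_fg (fun L => cohn_lewin L) M hMfg
    obtain ⟨r₀, ⟨b₀⟩⟩ := exists_basis_of_fg H hHfg
    obtain ⟨ρ₀, n₀, h1, _, _, _, h5, _⟩ := right_gen K X d H hH r₀ b₀ M m₀ hm₀
    refine ⟨⟨m₀, hm₀⟩, ⟨n₀, h5⟩, ⟨ρ₀, h1⟩, ⟨r₀, ⟨b₀.repr⟩⟩, ?_⟩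
    intro m n ρ r hm hn hρ ⟨e⟩
    exact general hd H hH M hm hn hρ e
  · intro d r hd hr
    constructor
    · intro h
      by_contra hcon
      push Not at hcon
      have hd2 : 2 ≤ d := by omega
      have hr3 : 3 ≤ r := by omega
      obtain ⟨H, M, m', ⟨bH⟩, hM1, hM2, hM3, _, hlt⟩ :=
        Pool.Agent.Results.MP_6883a6_al.RankFormula.result K d 1 r hd2 le_rfl hr3
      have hfg : Submodule.FG (M : RSub K (FreeGroup (Fin 2)) d) := by
        obtain ⟨b⟩ := hM2
        have : Module.Finite (MonoidAlgebra K (FreeGroup (Fin 2)))ᵐᵒᵖ M :=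
          Module.Finite.of_basis b
        exact Module.Finite.iff_fg.1 this
      have h2 := h (Fin 2) H ⟨bH.repr⟩ M hfg hM1 1 m' hM2 hM3
      exact absurd h2 (not_le.2 hlt)
    · intro hor X H ⟨e⟩ M hMfg hMalg m n hm hn
      have hH : H ≠ ⊥ := by
        intro h0
        have h1 : FreeGroup.of (⟨0, hr⟩ : Fin r) = 1 := by
          apply e.symm.injective
          have h2 : ∀ z : H, (z : FreeGroup X) = 1 := fun z => by
            have h3 : ∀ w ∈ H, w = 1 := fun w hw => by
              rw [h0, Subgroup.mem_bot] at hw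
              exact hw
            exact h3 z z.2
          exact Subtype.ext ((h2 _).trans (h2 _).symm)
        exact FreeGroup.of_ne_one _ h1
      obtain ⟨ρ, hρ⟩ := innerRank_exists M hMfg
      refine (general hd H hH M hm hn hρ e).2 ?_
      rcases hor with h1 | h2
      · left
        subst h1
        exact (full_one_iff M).2 (ne_bot_of_algebraic hMalg)
      · exact Or.inr h2

end Pool.Agent.Results.MP_6883a6_al.HannaNeumann
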